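import Mathlib
import Pool.Agent.Helper59.ACDefs
import Pool.Agent.Helper59.ACj

namespace Pool.Agent.Results.MP_1f2de8_an.CoefficientProblem

open Metric Pool.Agent.Helper59.AC

/-- The coefficient problem for the class `M(α)` of `α`-convex functions, `0 < α < 1`: the largest
value of `|a_n|` is `A α n` for every `n`, and one function `K`, the Koebe type function of
`M(α)`, is extremal for every `n`. -/
theorem result (α : ℝ) (h0 : 0 < α) (h1 : α < 1) :
    (∀ n : ℕ, 1 ≤ n → IsGreatest {x : ℝ | ∃ f : ℂ → ℂ, InM α f ∧ x = ‖coeff f n‖} (A α n)) ∧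
    ∃ K : ℂ → ℂ, InM α K ∧ (∀ n : ℕ, 1 ≤ n → coeff K n = (A α n : ℂ)) ∧
      (∀ z ∈ ball (0 : ℂ) 1, z ≠ 0 →
        (α * (1 + z * deriv (deriv K) z / deriv K z) + (1 - α) * (z * deriv K z / K z)) =
          (1 + z) / (1 - z)) ∧
      ∃ l : ℂ → ℂ, DifferentiableOn ℂ l (ball 0 1) ∧ l 0 = 0 ∧
        ∀ z ∈ ball (0 : ℂ) 1, Complex.exp (l z) = ∑' k : ℕ, (b α k : ℂ) * z ^ k ∧
          K z = z * Complex.exp (α * l z) :=
  main h0 h1

end Pool.Agent.Results.MP_1f2de8_an.CoefficientProblem
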